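import Pool.Agent.H98.SQ.Fib

/-! # Module Bas (MP_a74db3_co, square orders): the part of `D` in `A` is planar.

`fib_zero` of module Fib may be used (stub import).

PROOF of `base_planar`. Let `g <> 0` in `A`. By `planar` for `(g, 0) <> 0` there is exactly one
pair `(d, d')` in `D x D` with `d - d' = (g, 0)`. With `beta (a, b) = (a, -b)` also
`beta d - beta d' = (g, 0)` (because `d.2 = d'.2`), so `IsPlanar.sidon` (`d <> d'`) gives
`d = beta d` and `d' = beta d'`, hence `d.2 + d.2 = 0`, `d.2 = 0` (`two_B`), and `d'.2 = 0`. So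
`(d.1, d'.1)` is a pair of `base D` with difference `g`; conversely a pair `(a, a')` of `base D`
with `a - a' = g` gives the pair `((a, 0), (a', 0))` of `D` with difference `(g, 0)`. So the number
of pairs is `1`: use `Finset.card_eq_one`, or `card_bij` with `(a, a') ↦ ((a, 0), (a', 0))`.

PROOF of `base_card`. `Prod.fst` is injective on `D.filter (fun d => d.2 = 0)`
(`Finset.card_image_of_injOn`) and `fib_zero`. -/

set_option autoImplicit false

namespace Pool.Agent.H98.SQ

open Finset Pool.Agent.H42.CPD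

variable {A B : Type*} [AddCommGroup A] [Fintype A] [DecidableEq A] [AddCommGroup B] [Fintype B]
  [DecidableEq B] {r : ℕ} {D : Finset (A × B)}

theorem mem_base {a : A} : a ∈ base D ↔ (a, (0 : B)) ∈ D := by
  unfold base
  rw [Finset.mem_image]
  constructor
  · rintro ⟨d, hd, rfl⟩
    rw [Finset.mem_filter] at hd
    have : d = (d.1, (0 : B)) := Prod.ext rfl hd.2
    rw [← this]
    exact hd.1
  · intro h
    exact ⟨(a, 0), Finset.mem_filter.2 ⟨h, rfl⟩, rfl⟩

theorem base_planar (h : Hyp r D) : IsPlanar (base D) := by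
  intro g hg
  have hg2 : ((g, (0 : B)) : A × B) ≠ 0 := fun e => hg (congrArg Prod.fst e)
  obtain ⟨d, hd, d', hd', hdd⟩ := h.planar.exists_rep hg2
  have e1 : d.1 - d'.1 = g := congrArg Prod.fst hdd
  have e2 : d.2 - d'.2 = 0 := congrArg Prod.snd hdd
  have e3 : d.2 = d'.2 := sub_eq_zero.1 e2
  have hne : d ≠ d' := by
    rintro rfl
    rw [sub_self] at e1
    exact hg e1.symm
  have e4 : d - d' = (d.1, -d.2) - (d'.1, -d'.2) := by
    refine Prod.ext rfl ?_
    change d.2 - d'.2 = -d.2 - -d'.2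
    rw [e3, sub_self, sub_self]
  obtain ⟨e5, -⟩ := h.planar.sidon hd hd' (h.inv d hd) (h.inv d' hd') hne e4
  have e6 : d.2 = -d.2 := congrArg Prod.snd e5
  have e7 : d.2 = 0 := by
    refine h.two_B _ ?_
    nth_rewrite 2 [e6]
    exact add_neg_cancel _
  have e8 : d'.2 = 0 := e3 ▸ e7
  have e9 : d = (d.1, (0 : B)) := Prod.ext rfl e7
  have e10 : d' = (d'.1, (0 : B)) := Prod.ext rfl e8
  rw [Finset.card_eq_one]
  refine ⟨(d.1, d'.1), Finset.ext fun p => ?_⟩
  rw [Finset.mem_filter, Finset.mem_product, Finset.mem_singleton, mem_base, mem_base]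
  constructor
  · rintro ⟨⟨h1, h2⟩, h3⟩
    have h4 : ((p.1, (0 : B)) : A × B) ≠ (p.2, 0) := by
      intro e
      have e' : p.1 = p.2 := congrArg Prod.fst e
      rw [e', sub_self] at h3
      exact hg h3.symm
    have h5 : ((p.1, (0 : B)) : A × B) - (p.2, 0) = d - d' := by
      rw [hdd, ← h3]
      exact Prod.ext rfl (sub_self _)
    obtain ⟨h6, h7⟩ := h.planar.sidon h1 h2 hd hd' h4 h5
    have h8 : p.1 = d.1 := congrArg Prod.fst h6
    have h9 : p.2 = d'.1 := congrArg Prod.fst h7
    exact Prod.ext h8 h9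
  · rintro rfl
    refine ⟨⟨?_, ?_⟩, e1⟩
    · change (d.1, (0 : B)) ∈ D
      rw [← e9]
      exact hd
    · change (d'.1, (0 : B)) ∈ D
      rw [← e10]
      exact hd'

theorem base_card (h : Hyp r D) : (base D).card = r + 1 := by
  rw [← fib_zero h]
  unfold base
  refine Finset.card_image_of_injOn ?_
  intro x hx y hy hxy
  rw [Finset.mem_coe, Finset.mem_filter] at hx hy
  exact Prod.ext hxy (hx.2.trans hy.2.symm)

end Pool.Agent.H98.SQ
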