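import Pool.Agent.H98.SQ.Str

/-! # Module Cmp (MP_a74db3_co, square orders): comparison of two difference sets.

`exists_crt`, `mul_eq`, `coprime` of module Crt and the structure `Str` of module Str are used.

PROOF of `compare`. Let `D0 = t0 E0 + s0`. By the Chinese remainder theorem (`exists_crt`, the
isomorphism `e` and its inverse) there are `t` in `ZMod v` with `cast t = t0` modulo `n`,
`cast t = 1` modulo `m` (a unit, since `e` maps it to the unit `(t0, 1)`; or take
`Units.map e.symm` of the pair), and `s` with `cast s = s0` modulo `n`, `cast s = 0` modulo `m`.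
Put `E' = {t x + s : x ∈ E}`; `x ↦ t x + s` is injective.
Modulo `m`: `cast (t x + s) = cast x`, so the number of elements of `E'` in a class `i` is that of
`E`, which by `low` is the same as that of `D`.
Modulo `n`: `cast (t x + s) = t0 cast x + s0`, so the number of elements of `E'` in the class `w`
is that of `E` in the class `w' = t0⁻¹ (w - s0)`, which is `2 - #{(a, b) ∈ E0 x E0 : a + b = 2 w'}`
by `high`; and `(a, b) ↦ (t0 a + s0, t0 b + s0)` is a bijection of
`{(a, b) ∈ E0 x E0 : a + b = w' + w'}` onto `{(a, b) ∈ D0 x D0 : a + b = w + w}`. -/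

set_option autoImplicit false

namespace Pool.Agent.H98.SQ

open Finset Pool.Agent.H42.CPD

theorem compare {r m : ℕ} (hm : m + r = r ^ 2 + 1) (hm0 : 0 < m)
    {D E : Finset (ZMod ((r ^ 2) ^ 2 + r ^ 2 + 1))} {D0 E0 : Finset (ZMod (r ^ 2 + r + 1))}
    (hD : Str r m D D0) (hE : Str r m E E0)
    (t0 : (ZMod (r ^ 2 + r + 1))ˣ) (s0 : ZMod (r ^ 2 + r + 1))
    (h0 : D0 = E0.image (fun x => (t0 : ZMod (r ^ 2 + r + 1)) * x + s0)) :
    ∃ t : (ZMod ((r ^ 2) ^ 2 + r ^ 2 + 1))ˣ, ∃ s : ZMod ((r ^ 2) ^ 2 + r ^ 2 + 1),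
      (∀ i : ZMod m, (D.filter (fun x => (ZMod.cast x : ZMod m) = i)).card
        = ((E.image (fun x => (t : ZMod ((r ^ 2) ^ 2 + r ^ 2 + 1)) * x + s)).filter
            (fun x => (ZMod.cast x : ZMod m) = i)).card) ∧
      (∀ w : ZMod (r ^ 2 + r + 1),
        (D.filter (fun x => (ZMod.cast x : ZMod (r ^ 2 + r + 1)) = w)).card
        = ((E.image (fun x => (t : ZMod ((r ^ 2) ^ 2 + r ^ 2 + 1)) * x + s)).filter
            (fun x => (ZMod.cast x : ZMod (r ^ 2 + r + 1)) = w)).card) := by
  sorry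

end Pool.Agent.H98.SQ
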