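import Pool.Agent.H98.SQ.Var

/-! # Module Cnv (MP_a74db3_co, square orders): the projection of `D` to `A` is `2 A - F ^ 2`.

Everything of the modules Bas, Uni (`onLine_self`), Var (`onLine_not`) may be used.

Notation: `e w = (D.filter (fun d => d.1 = w)).card`, `F = {c : c + c ∈ base D}`.

STEP 1. For `z` in `A`: `∑ w, e w * 1[(w - z) + (w - z) ∈ base D] = 1` if `z + z ∈ base D` and
`= r + 1` otherwise. Indeed the left side is the number of `d` in `D` with
`(d.1 - z) + (d.1 - z) ∈ base D`, and `d ↦ d - beta (z, 0) = d - (z, 0)` is a bijection from these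
`d` onto `onLine D (z, 0)` (`y.1 = d.1 - z`, `mem_base`); `(z, 0)` is in `absPt D` iff
`z + z ∈ base D`; now `onLine_self` and `onLine_not`. This is `line_sum`.

STEP 2. `F` is planar of size `r + 1`: `c ↦ c + c` is a bijection of `A` which maps `F` onto
`base D` (`two_A`), and `base_planar`, `base_card`. So for every `g` the number of pairs
`(c, c')` in `F x F` with `c' - c = g` is `r + 1` for `g = 0` and `1` for `g <> 0`.

STEP 3. Fix `w0` and sum STEP 1 over `z = w0 - c`, `c ∈ F`. Left side:
`∑ w, e w * #{(c, c') ∈ F x F : c' - c = w - w0} = (r + 1) e w0 + ∑ (w <> w0), e w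
= r * e w0 + D.card = r * e w0 + r ^ 2 + 1` (the sum of all `e w` is `D.card`). Right side:
`∑ c ∈ F, (r + 1 - r * 1[w0 - c ∈ F]) = (r + 1) ^ 2 - r * #{c ∈ F : w0 - c ∈ F}`. So
`r * e w0 + r * #{c ∈ F : w0 - c ∈ F} = 2 r` and, as `r >= 1`,
`e w0 + #{c ∈ F : w0 - c ∈ F} = 2`. Finally `c ↦ (c + c, (w0 - c) + (w0 - c))` is a bijection of
`{c ∈ F : w0 - c ∈ F}` onto `{(a, b) ∈ base D x base D : a + b = w0 + w0}` (surjective: for such
`(a, b)` take `c` with `c + c = a`; then `(w0 - c) + (w0 - c) = w0 + w0 - a = b`). -/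

set_option autoImplicit false

namespace Pool.Agent.H98.SQ

open Finset Pool.Agent.H42.CPD

variable {A B : Type*} [AddCommGroup A] [Fintype A] [DecidableEq A] [AddCommGroup B] [Fintype B]
  [DecidableEq B] {r : ℕ} {D : Finset (A × B)}

theorem line_sum (h : Hyp r D) (z : A) :
    (D.filter (fun d => (d.1 - z) + (d.1 - z) ∈ base D)).card
      = if z + z ∈ base D then 1 else r + 1 := by
  sorry

theorem conv (h : Hyp r D) (w : A) :
    (D.filter (fun d => d.1 = w)).card
      + ((base D ×ˢ base D).filter (fun p => p.1 + p.2 = w + w)).card = 2 := by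
  sorry

end Pool.Agent.H98.SQ
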