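import Mathlib

/-! # Module Crt (MP_a74db3_co, square orders): arithmetic of `r ^ 4 + r ^ 2 + 1 = n m`,
`n = r ^ 2 + r + 1`, `m = r ^ 2 - r + 1` (here `m` is given by `m + r = r ^ 2 + 1`).

PROOFS. `mul_eq`: `nlinarith` / write `m = r ^ 2 + 1 - r` in `ℤ`. `coprime`: both numbers are odd
(`r (r + 1)` and `r (r - 1)` are even); a prime dividing both divides the difference `2 r`, hence
`r` (it is odd), hence `1`. Or: `r * n - ...`: over `ℤ`, `n - m = 2 r`; `gcd (n, 2 r) = 1` because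
`n` is odd and `n = r (r + 1) + 1`. `odd_n`, `odd_m`: parity.
`cube_n`: `(r - 1) n = r ^ 3 - 1` and `n = 0` in `ZMod n`. `cube_m`: `(r + 1) m = r ^ 3 + 1`.
`two_inj`: for `k` odd `2` is a unit of `ZMod k`: `k = 2 j + 1`, so `2 (-j) = 1` in `ZMod k`, and
`a = -(j * 2) a = -j (a + a) = 0`.
`exists_crt`: Mathlib has `ZMod.chineseRemainder`; or directly: the ring homomorphism
`(ZMod.castHom hn (ZMod n)).prod (ZMod.castHom hm (ZMod m))` is injective (if both casts of `x`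
vanish then `n ∣ x.val` and `m ∣ x.val`, `ZMod.natCast_self_eq_zero`, `ZMod.natCast_eq_zero_iff`,
so `n * m ∣ x.val < n * m`), and both sides have `n * m` elements, so it is bijective
(`Fintype.bijective_iff_injective_and_card`); use `RingEquiv.ofBijective`. -/

set_option autoImplicit false

namespace Pool.Agent.H98.SQ

theorem mul_eq {r m : ℕ} (hm : m + r = r ^ 2 + 1) :
    (r ^ 2 + r + 1) * m = (r ^ 2) ^ 2 + r ^ 2 + 1 := by
  have h : (m : ℤ) = (r : ℤ) ^ 2 + 1 - r := by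
    have h1 : ((m + r : ℕ) : ℤ) = ((r ^ 2 + 1 : ℕ) : ℤ) := by rw [hm]
    push_cast at h1
    linarith
  have h2 : (((r ^ 2 + r + 1) * m : ℕ) : ℤ) = (((r ^ 2) ^ 2 + r ^ 2 + 1 : ℕ) : ℤ) := by
    push_cast
    rw [h]
    ring
  exact_mod_cast h2

theorem crt_odd_n (r : ℕ) : Odd (r ^ 2 + r + 1) := by
  have h : Even (r ^ 2 + r) := by
    have h1 : Even (r * (r + 1)) := Nat.even_mul_succ_self r
    have h2 : r ^ 2 + r = r * (r + 1) := by ring
    rw [h2]
    exact h1
  exact h.add_one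

theorem coprime {r m : ℕ} (hm : m + r = r ^ 2 + 1) : Nat.Coprime (r ^ 2 + r + 1) m := by
  have h1 : r ^ 2 + r + 1 = m + 2 * r := by omega
  have h2 : Nat.Coprime (r ^ 2 + r + 1) (2 * r) := by
    apply Nat.Coprime.mul_right
    · exact (Nat.coprime_two_right).mpr (crt_odd_n r)
    · have h3 : r ^ 2 + r + 1 = 1 + r * (r + 1) := by ring
      rw [h3]
      simp
  have h4 : Nat.Coprime m (2 * r) := by
    rw [h1] at h2
    simpa using h2
  rw [h1]
  have h5 : Nat.Coprime (2 * r + m) m := by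
    rw [Nat.coprime_add_self_left]
    exact h4.symm
  rwa [Nat.add_comm] at h5

theorem odd_n (r : ℕ) : Odd (r ^ 2 + r + 1) := crt_odd_n r

theorem odd_m {r m : ℕ} (hm : m + r = r ^ 2 + 1) : Odd m := by
  have h1 : Odd (m + 2 * r) := by
    have h2 : m + 2 * r = r ^ 2 + r + 1 := by omega
    rw [h2]
    exact crt_odd_n r
  rcases h1 with ⟨k, hk⟩
  exact ⟨k - r, by omega⟩

theorem cube_n (r : ℕ) : (r : ZMod (r ^ 2 + r + 1)) ^ 3 = 1 := by
  have h : ((r ^ 2 + r + 1 : ℕ) : ZMod (r ^ 2 + r + 1)) = 0 := ZMod.natCast_self _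
  push_cast at h
  linear_combination ((r : ZMod (r ^ 2 + r + 1)) - 1) * h

theorem cube_m {r m : ℕ} (hm : m + r = r ^ 2 + 1) : (r : ZMod m) ^ 3 = -1 := by
  have h : ((m + r : ℕ) : ZMod m) = ((r ^ 2 + 1 : ℕ) : ZMod m) := by rw [hm]
  push_cast at h
  rw [ZMod.natCast_self, zero_add] at h
  linear_combination -((r : ZMod m) + 1) * h

theorem two_inj {k : ℕ} (hk : Odd k) (a : ZMod k) (h : a + a = 0) : a = 0 := by
  obtain ⟨j, hj⟩ := hk
  have h1 : ((k : ℕ) : ZMod k) = 0 := ZMod.natCast_self _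
  have h2 : ((2 * j + 1 : ℕ) : ZMod k) = 0 := by
    rw [← hj]
    exact h1
  push_cast at h2
  linear_combination a * h2 - (j : ZMod k) * h

theorem exists_crt {v n m : ℕ} (hv : n * m = v) (hn : 0 < n) (hm : 0 < m)
    (hc : Nat.Coprime n m) :
    ∃ e : ZMod v ≃+* ZMod n × ZMod m,
      ∀ x : ZMod v, e x = ((ZMod.cast x : ZMod n), (ZMod.cast x : ZMod m)) := by
  have hnv : n ∣ v := ⟨m, hv.symm⟩
  have hmv : m ∣ v := ⟨n, by rw [← hv]; ring⟩
  have hvp : 0 < v := by rw [← hv]; exact Nat.mul_pos hn hm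
  haveI : NeZero n := ⟨hn.ne'⟩
  haveI : NeZero m := ⟨hm.ne'⟩
  haveI : NeZero v := ⟨hvp.ne'⟩
  let f : ZMod v →+* ZMod n × ZMod m :=
    (ZMod.castHom hnv (ZMod n)).prod (ZMod.castHom hmv (ZMod m))
  have hf : ∀ x : ZMod v, f x = ((ZMod.cast x : ZMod n), (ZMod.cast x : ZMod m)) := by
    intro x
    rfl
  have hinj : Function.Injective f := by
    rw [injective_iff_map_eq_zero]
    intro x hx
    rw [hf] at hx
    have h1 : (ZMod.cast x : ZMod n) = 0 := congrArg Prod.fst hx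
    have h2 : (ZMod.cast x : ZMod m) = 0 := congrArg Prod.snd hx
    rw [← ZMod.natCast_val] at h1 h2
    have h3 : n ∣ x.val := (ZMod.natCast_eq_zero_iff _ _).mp h1
    have h4 : m ∣ x.val := (ZMod.natCast_eq_zero_iff _ _).mp h2
    have h5 : n * m ∣ x.val := Nat.Coprime.mul_dvd_of_dvd_of_dvd hc h3 h4
    rw [hv] at h5
    have h6 : x.val < v := ZMod.val_lt x
    have h7 : x.val = 0 := Nat.eq_zero_of_dvd_of_lt h5 h6
    exact (ZMod.val_eq_zero x).mp h7
  have hbij : Function.Bijective f := by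
    rw [Fintype.bijective_iff_injective_and_card]
    refine ⟨hinj, ?_⟩
    rw [Fintype.card_prod, ZMod.card, ZMod.card, ZMod.card, hv]
  exact ⟨RingEquiv.ofBijective f hbij, fun x => hf x⟩

end Pool.Agent.H98.SQ
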