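import Mathlib
import Pool.Agent.H42.CPD.Trip

/-! # Planar difference sets of square order with the multiplier of order two (MP_a74db3_co):
definitions.  `A` is the group of order `r ^ 2 + r + 1`, `B` the group of order `r ^ 2 - r + 1`,
`D` is a planar difference set of `A x B` fixed by `(a, b) ↦ (a, -b)`. -/

set_option autoImplicit false

namespace Pool.Agent.H98.SQ

open Finset Pool.Agent.H42.CPD

/-- The hypotheses used in all modules. -/
structure Hyp {A B : Type*} [AddCommGroup A] [Fintype A] [DecidableEq A] [AddCommGroup B]
    [Fintype B] [DecidableEq B] (r : ℕ) (D : Finset (A × B)) : Prop where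
  /-- the order is positive -/
  r_pos : 1 ≤ r
  /-- `D` is planar -/
  planar : IsPlanar D
  /-- the number of elements of `D` -/
  card_D : D.card = r ^ 2 + 1
  /-- the order of `A` -/
  card_A : Fintype.card A = r ^ 2 + r + 1
  /-- the order of `B` -/
  card_B : Fintype.card B + r = r ^ 2 + 1
  /-- doubling is injective on `A` -/
  two_A : ∀ a : A, a + a = 0 → a = 0
  /-- doubling is injective on `B` -/
  two_B : ∀ b : B, b + b = 0 → b = 0
  /-- `D` is fixed by `(a, b) ↦ (a, -b)` -/
  inv : ∀ x ∈ D, (x.1, -x.2) ∈ D

/-- The part of `D` in `A`. -/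
def base {A B : Type*} [AddCommGroup A] [DecidableEq A] [AddCommGroup B] [DecidableEq B]
    (D : Finset (A × B)) : Finset A := (D.filter (fun d => d.2 = 0)).image Prod.fst

/-- The absolute points of the polarity `x ↔ D - (x.1, -x.2)`. -/
def absPt {A B : Type*} [AddCommGroup A] [Fintype A] [DecidableEq A] [AddCommGroup B] [Fintype B]
    [DecidableEq B] (D : Finset (A × B)) : Finset (A × B) :=
  univ.filter (fun y => (y.1 + y.1, (0 : B)) ∈ D)

/-- The absolute points on the polar line of `x`. -/
def onLine {A B : Type*} [AddCommGroup A] [Fintype A] [DecidableEq A] [AddCommGroup B] [Fintype B]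
    [DecidableEq B] (D : Finset (A × B)) (x : A × B) : Finset (A × B) :=
  (absPt D).filter (fun y => y + (x.1, -x.2) ∈ D)

end Pool.Agent.H98.SQ
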