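import Pool.Agent.H98.SQ.Defs

/-! # Module Fib (MP_a74db3_co, square orders): the fibres of the projection of `D` to `B`.

Write `beta (a, b) = (a, -b)`; `beta` is additive and maps `D` into `D` (field `inv`).

PROOF of `fib_one`. Let `b <> 0`. EXISTENCE of `d` in `D` with `d.2 = b`. `b + b <> 0` by `two_B`,
so `g = (0, b + b) <> 0` and by `planar` there are `d, d'` in `D` with `d - d' = g`
(`IsPlanar.exists_rep` in H42/CPD/Trip), that is `d.1 = d'.1` and `d.2 - d'.2 = b + b`. Also
`beta d'` and `beta d` are in `D` and `beta d' - beta d = (d'.1 - d.1, -d'.2 + d.2) = g`. By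
uniqueness (`IsPlanar.sidon`, `d <> d'` because `g <> 0`) `d = beta d'`, so `d.2 = -d'.2` and
`d.2 + d.2 = b + b`, so `d.2 = b` (`two_B` applied to `d.2 - b`).
UNIQUENESS. Let `d, d'` in `D` with `d.2 = d'.2 = b` and `d <> d'`. Then
`d - d' = (d.1 - d'.1, 0) = beta d - beta d'`, so by `IsPlanar.sidon` `d = beta d`, so `b = -b`,
`b + b = 0`, `b = 0`, a contradiction.

PROOF of `fib_zero`. `D.card` is the sum over `b` of the sizes of the fibres
(`Finset.card_eq_sum_card_fiberwise` with `Prod.snd : D -> univ`); all `b <> 0` contribute `1`, so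
`r ^ 2 + 1 = c_0 + (card B - 1)` and `card B = r ^ 2 + 1 - r`, which gives `c_0 = r + 1`. -/

set_option autoImplicit false

namespace Pool.Agent.H98.SQ

open Finset Pool.Agent.H42.CPD

variable {A B : Type*} [AddCommGroup A] [Fintype A] [DecidableEq A] [AddCommGroup B] [Fintype B]
  [DecidableEq B] {r : ℕ} {D : Finset (A × B)}

private lemma fib_uniq (h : Hyp r D) {b : B} (hb : b ≠ 0) {d d' : A × B} (hd : d ∈ D) (hd' : d' ∈ D)
    (h1 : d.2 = b) (h2 : d'.2 = b) : d = d' := by
  by_contra hne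
  have e : d - d' = (d.1, -d.2) - (d'.1, -d'.2) := by
    ext
    · simp
    · simp [h1, h2]
  have h3 := (h.planar.sidon hd hd' (h.inv d hd) (h.inv d' hd') hne e).1
  have h4 : b = -b := by
    have h5 := congrArg Prod.snd h3
    rw [← h1]
    exact h5
  apply hb
  apply h.two_B
  nth_rewrite 2 [h4]
  exact add_neg_cancel b

private lemma fib_ex (h : Hyp r D) {b : B} (hb : b ≠ 0) : ∃ d ∈ D, d.2 = b := by
  have hb2 : b + b ≠ 0 := fun h0 => hb (h.two_B b h0)
  have hg : ((0, b + b) : A × B) ≠ 0 := by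
    intro h0
    exact hb2 (congrArg Prod.snd h0)
  obtain ⟨d, hd, d', hd', he⟩ := h.planar.exists_rep hg
  have e1 : d.1 - d'.1 = 0 := congrArg Prod.fst he
  have e2 : d.2 - d'.2 = b + b := congrArg Prod.snd he
  have hne : d ≠ d' := by
    intro h0
    rw [h0, sub_self] at he
    exact hg he.symm
  have e : d - d' = (d'.1, -d'.2) - (d.1, -d.2) := by
    ext
    · show d.1 - d'.1 = d'.1 - d.1
      rw [e1, ← neg_sub, e1, neg_zero]
    · show d.2 - d'.2 = -d'.2 - -d.2
      abel
  have h3 := (h.planar.sidon hd hd' (h.inv d' hd') (h.inv d hd) hne e).1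
  have h4 : d.2 = -d'.2 := congrArg Prod.snd h3
  refine ⟨d, hd, ?_⟩
  have h5 : d.2 + d.2 = b + b := by
    rw [← e2]
    nth_rewrite 2 [h4]
    exact (sub_eq_add_neg _ _).symm
  have h6 : (d.2 - b) + (d.2 - b) = 0 := by
    have : (d.2 - b) + (d.2 - b) = (d.2 + d.2) - (b + b) := by abel
    rw [this, h5, sub_self]
  exact sub_eq_zero.1 (h.two_B _ h6)

theorem fib_one (h : Hyp r D) (b : B) (hb : b ≠ 0) :
    (D.filter (fun d => d.2 = b)).card = 1 := by
  obtain ⟨d, hd, hdb⟩ := fib_ex h hb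
  rw [Finset.card_eq_one]
  refine ⟨d, ?_⟩
  ext x
  rw [Finset.mem_filter, Finset.mem_singleton]
  constructor
  · rintro ⟨hx, hxb⟩
    exact fib_uniq h hb hx hd hxb hdb
  · rintro rfl
    exact ⟨hd, hdb⟩

theorem fib_zero (h : Hyp r D) : (D.filter (fun d => d.2 = 0)).card = r + 1 := by
  have h1 : D.card = ∑ b : B, (D.filter (fun d => d.2 = b)).card :=
    Finset.card_eq_sum_card_fiberwise fun _ _ => Finset.mem_coe.2 (Finset.mem_univ _)
  rw [← Finset.add_sum_erase _ _ (Finset.mem_univ (0 : B))] at h1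
  have h2 : ∑ b ∈ univ.erase (0 : B), (D.filter (fun d => d.2 = b)).card = Fintype.card B - 1 := by
    rw [Finset.sum_congr rfl fun b hb => fib_one h b (Finset.ne_of_mem_erase hb), Finset.sum_const,
      smul_eq_mul, mul_one, Finset.card_erase_of_mem (Finset.mem_univ _), Finset.card_univ]
  have h3 := h.card_D
  have h4 := h.card_B
  have h5 : 1 ≤ Fintype.card B := Fintype.card_pos
  omega

end Pool.Agent.H98.SQ
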