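import Pool.Agent.H98.SQ.Cnv
import Pool.Agent.H98.SQ.Crt
import Pool.Agent.H42.CPD.Norm

/-! # Module Str (MP_a74db3_co, square orders): the structure theorem in `ZMod v`.

Here `v = (r ^ 2) ^ 2 + r ^ 2 + 1`, `n = r ^ 2 + r + 1`, `m` with `m + r = r ^ 2 + 1`;
`ZMod.cast x` is `x` modulo `n` resp. `m`. `Str r m E D0` collects the statements. All statements
of the modules Bas, Uni, Var, Cnv, Crt may be used.

PROOF of `exists_str`. `exists_fixed` (module H42/CPD/Norm) with `q = r ^ 2 = p ^ (2 k)` gives `c`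
such that `E = D + c` is closed under multiplication by `p`, hence by `p ^ (3 k) = r ^ 3`. Let `e` be
the isomorphism of `exists_crt` (`mul_eq`, `coprime`), and `D' = E.image e`, a subset of
`ZMod n × ZMod m`. Then `Hyp r D'` holds: `planar` and `card_D` because `e` is an additive
isomorphism (`Finset.card_bij` with `(x, y) ↦ (e x, e y)`, `IsPlanar.image_add` for the
translation), `card_A`, `card_B` from `ZMod.card`, `two_A`, `two_B` from `two_inj`, `inv`: for
`x ∈ E` we have `r ^ 3 * x ∈ E` and `e (r ^ 3 * x) = (cast x, -cast x)` by `cube_n`, `cube_m`.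
Put `D0 = base D'`. Then
* `pds`: `base_planar`, `base_card`;
* `low`: `fib_one`, `fib_zero`, with the bijection `e` between
  `E.filter (fun x => cast x = i)` and `D'.filter (fun d => d.2 = i)`;
* `base_eq`: definition of `base` (`(e x).1 = cast x`);
* `high`: `conv` in the same way;
* `inv`: shown above;
* `unital`: for `y` put `x0 = r ^ 3 * y` (so `e x0 = (cast y, -cast y)`). By `onLine_self`,
  `onLine_not` for `e x0` the number of `z ∈ absPt D'` with `z + (cast y, cast y) = z + e y ∈ D'`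
  is `1` if `e x0 ∈ absPt D'`, that is if `cast y + cast y ∈ D0` (`mem_base`), and `r + 1`
  otherwise; `x ↦ e x` is a bijection of the filter in the statement onto this set. -/

set_option autoImplicit false

namespace Pool.Agent.H98.SQ

open Finset Pool.Agent.H42.CPD

/-- The statements of the structure theorem. -/
structure Str (r m : ℕ) (E : Finset (ZMod ((r ^ 2) ^ 2 + r ^ 2 + 1)))
    (D0 : Finset (ZMod (r ^ 2 + r + 1))) : Prop where
  /-- `D0` has `r + 1` elements -/
  card_base : D0.card = r + 1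
  /-- `D0` is planar -/
  planar_base : IsPlanar D0
  /-- `D0` is the set of the elements of `E` that are `0` modulo `m`, read modulo `n` -/
  base_eq : D0 = (E.filter (fun x => (ZMod.cast x : ZMod m) = 0)).image
    (fun x => (ZMod.cast x : ZMod (r ^ 2 + r + 1)))
  /-- the residues modulo `m` -/
  low : ∀ i : ZMod m,
    (E.filter (fun x => (ZMod.cast x : ZMod m) = i)).card = if i = 0 then r + 1 else 1
  /-- the residues modulo `n` -/
  high : ∀ w : ZMod (r ^ 2 + r + 1),
    (E.filter (fun x => (ZMod.cast x : ZMod (r ^ 2 + r + 1)) = w)).card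
      + ((D0 ×ˢ D0).filter (fun p => p.1 + p.2 = w + w)).card = 2
  /-- the multiplier of order two -/
  inv : ∀ x ∈ E, (r : ZMod ((r ^ 2) ^ 2 + r ^ 2 + 1)) ^ 3 * x ∈ E
  /-- the lines meet the unital in `1` or `r + 1` points -/
  unital : ∀ y : ZMod ((r ^ 2) ^ 2 + r ^ 2 + 1),
    ((univ : Finset (ZMod ((r ^ 2) ^ 2 + r ^ 2 + 1))).filter (fun x =>
      (ZMod.cast x + ZMod.cast x : ZMod (r ^ 2 + r + 1)) ∈ D0 ∧ x + y ∈ E)).card
      = if (ZMod.cast y + ZMod.cast y : ZMod (r ^ 2 + r + 1)) ∈ D0 then 1 else r + 1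

theorem exists_str {p k r m : ℕ} (hp : p.Prime) (hk : 1 ≤ k) (hr : r = p ^ k)
    (hm : m + r = r ^ 2 + 1) (D : Finset (ZMod ((r ^ 2) ^ 2 + r ^ 2 + 1)))
    (hcard : D.card = r ^ 2 + 1) (hD : IsPlanar D) :
    ∃ c : ZMod ((r ^ 2) ^ 2 + r ^ 2 + 1), ∃ D0 : Finset (ZMod (r ^ 2 + r + 1)),
      Str r m (D.image (fun x => x + c)) D0 := by
  sorry

end Pool.Agent.H98.SQ
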