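import Pool.Agent.H98.SQ.Bas

/-! # Module Uni (MP_a74db3_co, square orders): the absolute points.

`mem_base`, `base_card` of module Bas may be used.

Write `beta (a, b) = (a, -b)`. By definition `y` is in `absPt D` iff `(y.1 + y.1, 0)` is in `D`, iff
`y + beta y` is in `D`, and `y` is in `onLine D x` iff `y` is in `absPt D` and `y + beta x` is in
`D`.

PROOF of `absPt_card`. `absPt D` is the product of `F = {a : a + a ∈ base D}` and `univ`; the map
`a ↦ a + a` is injective on the finite group `A` (`two_A` for the difference), hence bijective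
(`Finite.injective_iff_bijective`), so `F.card = (base D).card = r + 1` (`Finset.card_bij` or
`card_image_of_injective` for the image of `F`, which is `base D`).

PROOF of `onLine_self`. Let `x` be in `absPt D`. Then `x` is in `onLine D x`. Let `y` be in
`onLine D x` and suppose `y <> x`. The elements `y + beta y`, `x + beta x`, `y + beta x` are in `D`,
and so is `beta (y + beta x) = x + beta y` (field `inv`). We have
`(y + beta y) - (x + beta y) = y - x = (y + beta x) - (x + beta x)` and `y + beta y <> x + beta y`,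
so `IsPlanar.sidon` gives `y + beta y = y + beta x`, so `beta y = beta x`, `y = x`. So
`onLine D x = {x}`.

PROOF of `sum_onLine`: `∑ x, (onLine D x).card` counts pairs `(y, x)` with `y` in `absPt D` and
`y + beta x` in `D`; for fixed `y` the map `x ↦ y + beta x` is a bijection of `A x B`
(its inverse is `d ↦ beta (d - y)`), so there are `D.card` such `x`. (Write the card of a filter as
a sum of indicators, `Finset.sum_comm`.)

PROOF of `sum_onLine_sq`: `∑ x, (onLine D x).card ^ 2` counts triples `(y, y', x)` with `y, y'` in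
`absPt D`, `y + beta x` and `y' + beta x` in `D`. For `y = y'` there are `D.card` values `x` (as
above); for `y <> y'` exactly one: the pairs `(d, d')` in `D x D` with `d - d' = y - y'` correspond
to the `x` by `d = y + beta x`, `d' = y' + beta x` (inverse `x = beta (d - y) = beta (d' - y')`),
and there is exactly one such pair by `planar`. So the total is
`U * D.card + (U ^ 2 - U) * 1`, `U = (absPt D).card` (write it as `... + U = U * D.card + U ^ 2`). -/

set_option autoImplicit false

namespace Pool.Agent.H98.SQ

open Finset Pool.Agent.H42.CPD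

variable {A B : Type*} [AddCommGroup A] [Fintype A] [DecidableEq A] [AddCommGroup B] [Fintype B]
  [DecidableEq B] {r : ℕ} {D : Finset (A × B)}

private def Uni_b (x : A × B) : A × B := (x.1, -x.2)

omit [AddCommGroup A] [Fintype A] [DecidableEq A] [Fintype B] [DecidableEq B] in
private theorem Uni_bb (x : A × B) : Uni_b (Uni_b x) = x := Prod.ext rfl (neg_neg _)

private theorem Uni_one (D : Finset (A × B)) (y : A × B) :
    ∑ x : A × B, (if y + Uni_b x ∈ D then 1 else 0) = D.card := by
  rw [← Finset.card_filter]
  refine Finset.card_bij (fun x _ => y + Uni_b x) (fun x hx => (Finset.mem_filter.1 hx).2)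
    (fun x _ x' _ h => ?_) fun d hd => ?_
  · have h1 : Uni_b x = Uni_b x' := add_left_cancel h
    rw [← Uni_bb x, h1, Uni_bb]
  · refine ⟨Uni_b (d - y), Finset.mem_filter.2 ⟨Finset.mem_univ _, ?_⟩, ?_⟩
    · rw [Uni_bb, add_sub_cancel]
      exact hd
    · rw [Uni_bb, add_sub_cancel]

private theorem Uni_two (h : Hyp r D) {y y' : A × B} (hy : y ≠ y') :
    ∑ x : A × B, (if y + Uni_b x ∈ D then 1 else 0) * (if y' + Uni_b x ∈ D then 1 else 0) = 1 := by
  have h1 : ∀ x : A × B, (if y + Uni_b x ∈ D then 1 else 0) * (if y' + Uni_b x ∈ D then 1 else 0)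
      = if (y + Uni_b x ∈ D ∧ y' + Uni_b x ∈ D) then 1 else 0 := by
    intro x
    by_cases h1 : y + Uni_b x ∈ D <;> by_cases h2 : y' + Uni_b x ∈ D <;> simp [h1, h2]
  rw [Finset.sum_congr rfl fun x _ => h1 x, ← Finset.card_filter,
    ← h.planar (y - y') (sub_ne_zero.2 hy)]
  refine Finset.card_bij (fun x _ => (y + Uni_b x, y' + Uni_b x)) (fun x hx => ?_)
    (fun x _ x' _ h2 => ?_) fun d hd => ?_
  · rw [Finset.mem_filter] at hx
    rw [Finset.mem_filter, Finset.mem_product]
    exact ⟨hx.2, add_sub_add_right_eq_sub _ _ _⟩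
  · have h3 : Uni_b x = Uni_b x' := add_left_cancel (congrArg Prod.fst h2)
    rw [← Uni_bb x, h3, Uni_bb]
  · rw [Finset.mem_filter, Finset.mem_product] at hd
    have h4 : y' + (d.1 - y) = d.2 := by
      have h5 : d.1 = d.2 + (y - y') := by rw [← hd.2]; abel
      rw [h5]; abel
    refine ⟨Uni_b (d.1 - y), Finset.mem_filter.2 ⟨Finset.mem_univ _, ?_⟩, ?_⟩
    · rw [Uni_bb, add_sub_cancel, h4]
      exact hd.1
    · rw [Uni_bb, add_sub_cancel, h4]

theorem absPt_card (h : Hyp r D) : (absPt D).card = (r + 1) * Fintype.card B := by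
  have h1 : absPt D = (univ.filter fun a : A => a + a ∈ base D) ×ˢ (univ : Finset B) := by
    ext y
    unfold absPt
    rw [Finset.mem_filter, Finset.mem_product, Finset.mem_filter, mem_base]
    simp
  have hinj : Function.Injective fun a : A => a + a := by
    intro a b hab
    have h2 : (a - b) + (a - b) = 0 := by
      have h3 : a + a = b + b := hab
      have h4 : (a - b) + (a - b) = (a + a) - (b + b) := by abel
      rw [h4, h3, sub_self]
    exact sub_eq_zero.1 (h.two_A _ h2)
  have hbij := Finite.injective_iff_surjective.1 hinj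
  have h2 : (univ.filter fun a : A => a + a ∈ base D).image (fun a : A => a + a) = base D := by
    ext a
    rw [Finset.mem_image]
    constructor
    · rintro ⟨b, hb, rfl⟩
      exact (Finset.mem_filter.1 hb).2
    · intro ha
      obtain ⟨b, hb⟩ := hbij a
      have hb' : b + b = a := hb
      exact ⟨b, Finset.mem_filter.2 ⟨Finset.mem_univ _, hb' ▸ ha⟩, hb⟩
  have h3 : (univ.filter fun a : A => a + a ∈ base D).card = r + 1 := by
    rw [← base_card h, ← h2, Finset.card_image_of_injective _ hinj]
    congr 1
    rw [h2]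
  rw [h1, Finset.card_product, h3, Finset.card_univ]

theorem onLine_self (h : Hyp r D) {x : A × B} (hx : x ∈ absPt D) : (onLine D x).card = 1 := by
  rw [Finset.card_eq_one]
  refine ⟨x, Finset.ext fun y => ?_⟩
  have hxx : ∀ y : A × B, y ∈ absPt D ↔ y + Uni_b y ∈ D := by
    intro y
    have h1 : y + Uni_b y = (y.1 + y.1, 0) := Prod.ext rfl (add_neg_cancel _)
    unfold absPt
    rw [Finset.mem_filter, h1]
    simp
  rw [Finset.mem_singleton]
  constructor
  · intro hy
    by_contra hne
    have hy2 : y ∈ absPt D ∧ y + Uni_b x ∈ D := Finset.mem_filter.1 hy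
    have h1 := (hxx y).1 hy2.1
    have h2 := (hxx x).1 hx
    have h3 : x + Uni_b y ∈ D := by
      have h4 := h.inv _ hy2.2
      have h5 : ((y + Uni_b x).1, -(y + Uni_b x).2) = x + Uni_b y := by
        refine Prod.ext (add_comm _ _) ?_
        change -(y.2 + -x.2) = x.2 + -y.2
        abel
      rwa [h5] at h4
    have h6 : y + Uni_b y ≠ x + Uni_b y := fun e => hne (add_right_cancel e)
    have h7 : (y + Uni_b y) - (x + Uni_b y) = (y + Uni_b x) - (x + Uni_b x) := by abel
    obtain ⟨h8, -⟩ := h.planar.sidon h1 h3 hy2.2 h2 h6 h7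
    have h9 : Uni_b y = Uni_b x := add_left_cancel h8
    exact hne (by rw [← Uni_bb y, h9, Uni_bb])
  · rintro rfl
    exact Finset.mem_filter.2 ⟨hx, (hxx y).1 hx⟩

theorem sum_onLine (h : Hyp r D) : ∑ x : A × B, (onLine D x).card = (absPt D).card * D.card := by
  have h1 : ∀ x : A × B, (onLine D x).card = ∑ y ∈ absPt D, if y + Uni_b x ∈ D then 1 else 0 :=
    fun x => Finset.card_filter _ _
  rw [Finset.sum_congr rfl fun x _ => h1 x, Finset.sum_comm,
    Finset.sum_congr rfl fun y _ => Uni_one D y, Finset.sum_const, smul_eq_mul]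

theorem sum_onLine_sq (h : Hyp r D) : ∑ x : A × B, (onLine D x).card ^ 2 + (absPt D).card
    = (absPt D).card * D.card + (absPt D).card ^ 2 := by
  have h1 : ∀ x : A × B, (onLine D x).card ^ 2 = ∑ y ∈ absPt D, ∑ y' ∈ absPt D,
      (if y + Uni_b x ∈ D then 1 else 0) * (if y' + Uni_b x ∈ D then 1 else 0) := by
    intro x
    have h2 : (onLine D x).card = ∑ y ∈ absPt D, if y + Uni_b x ∈ D then 1 else 0 :=
      Finset.card_filter _ _
    rw [pow_two, h2, Finset.sum_mul_sum]
  have h2 : ∑ x : A × B, (onLine D x).card ^ 2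
      = ∑ y ∈ absPt D, ∑ y' ∈ absPt D, if y = y' then D.card else 1 := by
    rw [Finset.sum_congr rfl fun x _ => h1 x, Finset.sum_comm]
    refine Finset.sum_congr rfl fun y _ => ?_
    rw [Finset.sum_comm]
    refine Finset.sum_congr rfl fun y' _ => ?_
    by_cases hy : y = y'
    · subst hy
      rw [if_pos rfl, ← Uni_one D y]
      refine Finset.sum_congr rfl fun x _ => ?_
      by_cases h3 : y + Uni_b x ∈ D <;> simp [h3]
    · rw [if_neg hy]
      exact Uni_two h hy
  have h3 : ∀ y ∈ absPt D, (∑ y' ∈ absPt D, if y = y' then D.card else 1) + 1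
      = D.card + (absPt D).card := by
    intro y hy
    have h4 : (1 : ℕ) = ∑ y' ∈ absPt D, if y = y' then 1 else 0 := by
      rw [Finset.sum_ite_eq, if_pos hy]
    have h5 : ∀ y' : A × B, (if y = y' then D.card else 1) + (if y = y' then 1 else 0)
        = (if y = y' then D.card else 0) + 1 := by
      intro y'
      by_cases h6 : y = y' <;> simp [h6]
    have h7 : (∑ y' ∈ absPt D, if y = y' then D.card else 1) + 1
        = (∑ y' ∈ absPt D, if y = y' then D.card else 1) + ∑ y' ∈ absPt D, if y = y' then 1 else 0 :=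
      congrArg (fun t => (∑ y' ∈ absPt D, if y = y' then D.card else 1) + t) h4
    rw [h7, ← Finset.sum_add_distrib, Finset.sum_congr rfl fun y' _ => h5 y', Finset.sum_add_distrib,
      Finset.sum_ite_eq, if_pos hy, Finset.sum_const, smul_eq_mul, mul_one]
  rw [h2]
  have h4 : (absPt D).card = ∑ _y ∈ absPt D, 1 := by rw [Finset.sum_const, smul_eq_mul, mul_one]
  conv_lhs => rw [h4]
  rw [← Finset.sum_add_distrib, Finset.sum_congr rfl h3, Finset.sum_const, smul_eq_mul]
  ring

end Pool.Agent.H98.SQ
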