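import Pool.Agent.H98.SQ.Uni

/-! # Module Var (MP_a74db3_co, square orders): a line that is not tangent meets the unital in
`r + 1` points.

The statements of module Uni may be used.

PROOF of `onLine_not`. Work in `ℤ`; write `t x = (onLine D x).card`, `b = card B`, `U = absPt D`,
`u = U.card = (r + 1) * b`, `b = r ^ 2 + 1 - r`, so `u = r ^ 3 + 1`. The sum over all `x` of `t x`
is `u (r ^ 2 + 1)` and over `x` in `U` it is `u` (`onLine_self`), so
`∑ x ∉ U, t x = u r ^ 2`.
In the same way `∑ x ∉ U, (t x) ^ 2 = u (r ^ 2 + 1) + u ^ 2 - u - u = u (r ^ 2 + u - 1)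
= u (r ^ 2 + r ^ 3) = u r ^ 2 (r + 1)`. The number of `x ∉ U` is
`card A * b - u = b (r ^ 2 + r + 1 - (r + 1)) = b r ^ 2`. So
`∑ x ∉ U, (t x - (r + 1)) ^ 2 = u r ^ 2 (r + 1) - 2 (r + 1) u r ^ 2 + (r + 1) ^ 2 b r ^ 2
= b r ^ 2 ((r + 1) ^ 2 - 2 (r + 1) ^ 2 + (r + 1) ^ 2) = 0`.
A sum of squares is zero only if every term is zero (`Finset.sum_eq_zero_iff_of_nonneg`). Split the
sums over `univ` with `Finset.sum_add_sum_compl` (or `Finset.sum_compl_add_sum`). -/

set_option autoImplicit false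

namespace Pool.Agent.H98.SQ

open Finset Pool.Agent.H42.CPD

variable {A B : Type*} [AddCommGroup A] [Fintype A] [DecidableEq A] [AddCommGroup B] [Fintype B]
  [DecidableEq B] {r : ℕ} {D : Finset (A × B)}

theorem onLine_not (h : Hyp r D) {x : A × B} (hx : x ∉ absPt D) :
    (onLine D x).card = r + 1 := by
  sorry

end Pool.Agent.H98.SQ
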